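import Pool.Agent.H85.UQ.State

/-!
# Maps `C([0,1]^n) → A` with the same trace, for `A` simple with strict comparison (Q2)

Let `A` be a unital simple C*-algebra of stable rank one with strict comparison whose unique
2-quasitracial state `τ` is a trace.  Then for every `n ≥ 1` any two injective unital homomorphisms
`φ, ψ : C([0,1]^n) → A` with `τ ∘ φ = τ ∘ ψ` are approximately unitarily equivalent.

Idea of the proof.

1. `τ` is faithful.  Let `h_1, …, h_N` be functions on the cube with pairwise disjoint supports of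
   small diameter and `τ(φ(1 - ∑ h_j))` small, and `h'_j = (h_j - 1/2)_+`.  Since the cube is
   connected, `d_τ(ψ(h'_j)) < d_τ(φ(h_j))`, and strict comparison gives
   `y_j ∈ φ(h_j)^{1/2} A` with `y_j* y_j ≈ ψ(h'_j)²`.  The sum `x = ∑ y_j` satisfies
   `φ(f) x ≈ x ψ(f)` and `x* x ≈ ψ(∑ h'_j)²`.
2. As `A` has stable rank one, the polar part of `x`, cut down near `0`, is given by a unitary `w`,
   so `φ` and `w ψ w*` almost agree off an almost central positive element `P` whose kernel
   has small trace.
3. Absorption.  For finitely many positive elements `a` living under the small kernel part of `P` and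
   disjoint bumps `o` in the cube, strict comparison gives `y` with `y* y ≈ a` and
   `y ∈ φ(o) (1 - c) A`, `c` the spectral cutoff of `P`.  Sums of such elements are almost isometries
   from the small corner to its complement, which intertwine `φ` with the maps
   `f ↦ f((1 - t σ) φ)` and `f ↦ f((1 - t σ) w ψ w*)`, where `σ` is a cutoff of `P`; these connect
   `φ` and `w ψ w*` on the corner.
4. The zigzag argument (as for the free powers of `C([0,1])`) gives a unitary conjugating `φ` almost
   to `w ψ w*`.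
-/

set_option autoImplicit false

open scoped ComplexConjugate ComplexOrder

noncomputable section

namespace Pool.Agent.Results.MP_401a3a_an.StrictComparison

/-- a tracial state on the unital C*-algebra `A` -/
structure IsTracialState {A : Type} [CStarAlgebra A] (t : A →ₗ[ℂ] ℂ) : Prop where
  one : t 1 = 1
  comm : ∀ x y, t (x * y) = t (y * x)
  pos : ∀ x, 0 ≤ t (star x * x)

/-- a (finite, complex valued) quasitrace `q` on `B` (`B = A` or `B = M₂(A)` for a unital C*-algebra
`A`): `q(x* x) = q(x x*) ≥ 0`, `q(a + i b) = q(a) + i q(b)` for self-adjoint `a, b`, and `q` is linear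
on commuting self-adjoint elements (so `q` is linear on commutative C*-subalgebras) -/
structure IsQuasitrace {B : Type} [Ring B] [StarRing B] [Algebra ℂ B] (q : B → ℂ) : Prop where
  pos : ∀ x, 0 ≤ q (star x * x)
  comm : ∀ x, q (star x * x) = q (x * star x)
  add_I : ∀ a b, IsSelfAdjoint a → IsSelfAdjoint b → q (a + Complex.I • b) = q a + Complex.I * q b
  add : ∀ a b, IsSelfAdjoint a → IsSelfAdjoint b → Commute a b → q (a + b) = q a + q b
  smul : ∀ (r : ℝ) (a : B), IsSelfAdjoint a → q ((r : ℂ) • a) = r * q a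

/-- a 2-quasitracial state: a normalised quasitrace on `A` that extends to a quasitrace on `M₂(A)` -/
structure IsTwoQuasitracialState {A : Type} [CStarAlgebra A] (q : A → ℂ) : Prop where
  one : q 1 = 1
  quasitrace : IsQuasitrace q
  extend : ∃ q₂ : Matrix (Fin 2) (Fin 2) A → ℂ, IsQuasitrace q₂ ∧
    ∀ a, q₂ (Matrix.single 0 0 a) = q a

/-- the dimension function `d_q(a) = lim_k q(a^{1/k})` -/
def dimFn {A : Type} [CStarAlgebra A] (q : A → ℂ) (a : A) : ℝ :=
  Filter.limUnder Filter.atTop fun k : ℕ => (q (cfc (fun t : ℝ => t ^ (1 / (k : ℝ))) a)).re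

/-- Cuntz subequivalence: `a = lim_k v_k b v_k*` for some sequence `v` in `A` -/
def CuntzSubequivalent {A : Type} [CStarAlgebra A] (a b : A) : Prop :=
  ∃ v : ℕ → A, Filter.Tendsto (fun k => v k * b * star (v k)) Filter.atTop (nhds a)

/-- strict comparison for the positive elements of `A` (no matrices over `A` are needed) -/
def HasStrictComparison (A : Type) [CStarAlgebra A] : Prop :=
  ∀ a b : A, (∃ x, a = star x * x) → (∃ y, b = star y * y) →
    (∀ q : A → ℂ, IsTwoQuasitracialState q → dimFn q a < dimFn q b) → CuntzSubequivalent a b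

/-- approximate unitary equivalence of unital homomorphisms -/
def ApproxUnitarilyEquivalent {B A : Type} [CStarAlgebra B] [CStarAlgebra A]
    (φ ψ : B →⋆ₐ[ℂ] A) : Prop :=
  ∀ (F : Finset B) (ε : ℝ), 0 < ε → ∃ u : unitary A, ∀ b ∈ F,
    ‖(u : A) * φ b * star (u : A) - ψ b‖ < ε

/-- **Theorem (Q2).** Let `A` be a unital C*-algebra which is simple, of stable rank one, and has
strict comparison (separability is not needed).  Suppose that `A` has a unique 2-quasitracial state
`τ` and that `τ` is a trace.  Then for every `n ≥ 1` any two injective unital homomorphisms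
`φ, ψ : C([0,1]^n) → A` with `τ ∘ φ = τ ∘ ψ` are approximately unitarily equivalent. -/
theorem result (A : Type) [CStarAlgebra A]
    (hsimple : ∀ I : TwoSidedIdeal A, IsClosed (I : Set A) → I = ⊥ ∨ I = ⊤)
    (hsr : Dense {x : A | IsUnit x}) (hcmp : HasStrictComparison A)
    (τ : A →ₗ[ℂ] ℂ) (hτ : IsTracialState τ)
    (huniq : ∀ q : A → ℂ, IsTwoQuasitracialState q ↔ q = τ) (n : ℕ) (hn : 1 ≤ n)
    (φ ψ : C(Fin n → unitInterval, ℂ) →⋆ₐ[ℂ] A) (hφ : Function.Injective φ)
    (hψ : Function.Injective ψ) (heq : ∀ f, τ (φ f) = τ (ψ f)) :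
    ApproxUnitarilyEquivalent φ ψ := by
  have hF := Pool.Agent.H85.UQ.fts_of_simple τ hτ.one hτ.comm hτ.pos hsimple
  have hC : Pool.Agent.H85.UQ.CmpT τ := by
    intro x y M n0 h1 h2 ε hε
    obtain ⟨v, hv⟩ := hcmp (star x * x) (star y * y) ⟨x, rfl⟩ ⟨y, rfl⟩ (fun q hq => by
      rw [(huniq q).1 hq]
      have e1 : dimFn τ (star x * x) = _ :=
        (Pool.Agent.H85.UQ.dim_lim hF (star x * x) ⟨x, rfl⟩).limUnder_eq
      have e2 : dimFn τ (star y * y) = _ :=
        (Pool.Agent.H85.UQ.dim_lim hF (star y * y) ⟨y, rfl⟩).limUnder_eq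
      rw [e1, e2]
      exact Pool.Agent.H85.UQ.dim_lt hF _ _ ⟨y, rfl⟩ M n0 h1 h2)
    obtain ⟨k, hk⟩ := (Metric.tendsto_nhds.1 hv ε hε).exists
    rw [dist_eq_norm] at hk
    exact ⟨v k, hk⟩
  have hS : Pool.Agent.H923R2.FZ.SRb A := by
    intro b _
    obtain ⟨z, hz1, hz2⟩ := Metric.dense_iff.1 hsr b 1 one_pos
    refine ⟨z, hz2, ?_⟩
    rw [Metric.mem_ball, dist_comm, dist_eq_norm] at hz1
    exact hz1
  intro F ε hε
  exact Pool.Agent.H85.UQ.unique2 τ hF hS hC n hn ψ φ (fun f => (heq f).symm) hψ F ε hε

end Pool.Agent.Results.MP_401a3a_an.StrictComparison
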